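import Mathlib

namespace Pool.Agent.Results.MP_1e9cc8_nt.Thresholds

/-- the number of primes in the closed interval `[a, b]` -/
def primesIn (a b : ℕ) : ℕ := ((Finset.Icc a b).filter Nat.Prime).card

/-- `N` is an admissible threshold for `k`: for every integer `n > N` each of the intervals
`[n² - n, n²]` and `[n², n² + n]` contains at least `k` primes. -/
def Admissible (k N : ℕ) : Prop :=
  ∀ n : ℕ, N < n → k ≤ primesIn (n ^ 2 - n) (n ^ 2) ∧ k ≤ primesIn (n ^ 2) (n ^ 2 + n)

/-- the sieving primes -/
def L : List ℕ := [2, 3, 5, 7, 11, 13, 17, 19, 23, 29, 31, 37, 41, 43, 47, 53, 59, 61, 67, 71, 73,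
  79, 83, 89, 97, 101, 103, 107, 109, 113, 127, 131, 137, 139, 149, 151, 157, 163, 167, 173, 179,
  181]

/-- the number of members of `{a, ..., a + m - 1}` that are divisible by no element of `L` -/
def sieved (a : ℕ) : ℕ → ℕ
  | 0 => 0
  | m + 1 => (if L.all fun q => (a + m) % q != 0 then 1 else 0) + sieved a m

theorem primesIn_le (a m : ℕ) (ha : 181 < a) : primesIn a (a + m) ≤ sieved a (m + 1) := by
  have key : ∀ k : ℕ, ((Finset.Ico a (a + k)).filter Nat.Prime).card ≤ sieved a k := by
    intro k
    induction k with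
    | zero => simp [sieved]
    | succ k ih =>
      have e : Finset.Ico a (a + (k + 1)) = insert (a + k) (Finset.Ico a (a + k)) := by
        ext x
        simp only [Finset.mem_Ico, Finset.mem_insert]
        omega
      rw [e, Finset.filter_insert]
      unfold sieved
      by_cases hp : Nat.Prime (a + k)
      · rw [if_pos hp]
        have hall : (L.all fun q => (a + k) % q != 0) = true := by
          rw [List.all_eq_true]
          intro q hq
          have h1 : 2 ≤ q ∧ q ≤ 181 := by
            unfold L at hq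
            simp only [List.mem_cons, List.not_mem_nil, or_false] at hq
            omega
          simp only [bne_iff_ne, ne_eq]
          intro h0
          have hd : q ∣ a + k := Nat.dvd_of_mod_eq_zero h0
          rcases (Nat.dvd_prime hp).1 hd with h | h
          · omega
          · omega
        rw [if_pos hall]
        have := Finset.card_insert_le (a + k) ((Finset.Ico a (a + k)).filter Nat.Prime)
        omega
      · rw [if_neg hp]
        omega
  have h := key (m + 1)
  unfold primesIn
  have e : Finset.Icc a (a + m) = Finset.Ico a (a + (m + 1)) := by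
    ext x
    simp only [Finset.mem_Icc, Finset.mem_Ico]
    omega
  rw [e]
  exact h

theorem right_bound {n k c : ℕ} (hn : 181 < n ^ 2) (hc : sieved (n ^ 2) (n + 1) = c) (hck : c < k)
    {N : ℕ} (h : Admissible k N) : n ≤ N := by
  by_contra hlt
  have h1 := (h n (by omega)).2
  have h2 := primesIn_le (n ^ 2) n hn
  omega

theorem left_bound {n k c : ℕ} (hn : 181 < n ^ 2 - n) (hc : sieved (n ^ 2 - n) (n + 1) = c)
    (hck : c < k) {N : ℕ} (h : Admissible k N) : n ≤ N := by
  by_contra hlt
  have h1 := (h n (by omega)).1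
  have h2 := primesIn_le (n ^ 2 - n) n hn
  have h3 : n ^ 2 - n + n = n ^ 2 := by
    have : n ≤ n ^ 2 := by nlinarith
    omega
  rw [h3] at h2
  omega

/-- Ten of the twelve explicit thresholds of the conjecture are wrong: `N(2) = 16`, `N(3) = 36`,
`N(4) = 46`, `N(5) = 76`, `N(7) = 79`, `N(8) = 85`, `N(9) = 118`, `N(10) = 136`, `N(12) = 155` and
`N(13) = 188` are not admissible. Every admissible threshold for `k = 2, 3, …, 13` is at least
`17, 37, 47, 77, 77, 80, 86, 119, 137, 137, 156, 189`. -/
theorem result :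
    (¬ Admissible 2 16 ∧ ¬ Admissible 3 36 ∧ ¬ Admissible 4 46 ∧ ¬ Admissible 5 76 ∧
      ¬ Admissible 7 79 ∧ ¬ Admissible 8 85 ∧ ¬ Admissible 9 118 ∧ ¬ Admissible 10 136 ∧
      ¬ Admissible 12 155 ∧ ¬ Admissible 13 188) ∧
    ∀ N : ℕ, (Admissible 2 N → 17 ≤ N) ∧ (Admissible 3 N → 37 ≤ N) ∧ (Admissible 4 N → 47 ≤ N) ∧
      (Admissible 5 N → 77 ≤ N) ∧ (Admissible 6 N → 77 ≤ N) ∧ (Admissible 7 N → 80 ≤ N) ∧
      (Admissible 8 N → 86 ≤ N) ∧ (Admissible 9 N → 119 ≤ N) ∧ (Admissible 10 N → 137 ≤ N) ∧
      (Admissible 11 N → 137 ≤ N) ∧ (Admissible 12 N → 156 ≤ N) ∧ (Admissible 13 N → 189 ≤ N) := by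
  have h17 : sieved (17 ^ 2) (17 + 1) = 1 := by decide +kernel
  have h37 : sieved (37 ^ 2 - 37) (37 + 1) = 2 := by decide +kernel
  have h47 : sieved (47 ^ 2 - 47) (47 + 1) = 3 := by decide +kernel
  have h77 : sieved (77 ^ 2) (77 + 1) = 4 := by decide +kernel
  have h80 : sieved (80 ^ 2) (80 + 1) = 6 := by decide +kernel
  have h86 : sieved (86 ^ 2 - 86) (86 + 1) = 7 := by decide +kernel
  have h119 : sieved (119 ^ 2) (119 + 1) = 8 := by decide +kernel
  have h137 : sieved (137 ^ 2) (137 + 1) = 9 := by decide +kernel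
  have h156 : sieved (156 ^ 2 - 156) (156 + 1) = 11 := by decide +kernel
  have h189 : sieved (189 ^ 2 - 189) (189 + 1) = 12 := by decide +kernel
  have key : ∀ N : ℕ, (Admissible 2 N → 17 ≤ N) ∧ (Admissible 3 N → 37 ≤ N) ∧
      (Admissible 4 N → 47 ≤ N) ∧
      (Admissible 5 N → 77 ≤ N) ∧ (Admissible 6 N → 77 ≤ N) ∧ (Admissible 7 N → 80 ≤ N) ∧
      (Admissible 8 N → 86 ≤ N) ∧ (Admissible 9 N → 119 ≤ N) ∧ (Admissible 10 N → 137 ≤ N) ∧
      (Admissible 11 N → 137 ≤ N) ∧ (Admissible 12 N → 156 ≤ N) ∧ (Admissible 13 N → 189 ≤ N) :=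
    fun N => ⟨fun h => right_bound (by norm_num) h17 (by norm_num) h,
      fun h => left_bound (by norm_num) h37 (by norm_num) h,
      fun h => left_bound (by norm_num) h47 (by norm_num) h,
      fun h => right_bound (by norm_num) h77 (by norm_num) h,
      fun h => right_bound (by norm_num) h77 (by norm_num) h,
      fun h => right_bound (by norm_num) h80 (by norm_num) h,
      fun h => left_bound (by norm_num) h86 (by norm_num) h,
      fun h => right_bound (by norm_num) h119 (by norm_num) h,
      fun h => right_bound (by norm_num) h137 (by norm_num) h,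
      fun h => right_bound (by norm_num) h137 (by norm_num) h,
      fun h => left_bound (by norm_num) h156 (by norm_num) h,
      fun h => left_bound (by norm_num) h189 (by norm_num) h⟩
  refine ⟨⟨fun h => ?_, fun h => ?_, fun h => ?_, fun h => ?_, fun h => ?_, fun h => ?_,
    fun h => ?_, fun h => ?_, fun h => ?_, fun h => ?_⟩, key⟩
  · have := (key 16).1 h; omega
  · have := (key 36).2.1 h; omega
  · have := (key 46).2.2.1 h; omega
  · have := (key 76).2.2.2.1 h; omega
  · have := (key 79).2.2.2.2.2.1 h; omega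
  · have := (key 85).2.2.2.2.2.2.1 h; omega
  · have := (key 118).2.2.2.2.2.2.2.1 h; omega
  · have := (key 136).2.2.2.2.2.2.2.2.1 h; omega
  · have := (key 155).2.2.2.2.2.2.2.2.2.2.1 h; omega
  · have := (key 188).2.2.2.2.2.2.2.2.2.2.2 h; omega

end Pool.Agent.Results.MP_1e9cc8_nt.Thresholds
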